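import Pool.Agent.V11260.Loc.Main

/-! Complete families of eigenfunctions. -/

set_option autoImplicit false

open MeasureTheory Set Filter
open scoped BigOperators Topology ENNReal

namespace Pool.Agent.V11260.Loc

open Pool.Agent.H4R2.LO (Zd)
open Pool.Agent.W788.LD.Spec (S)
open Pool.Agent.TH794.QE (Rs)

variable {d : ℕ}

theorem ip_sq {V : Zd d → ℝ} {a : Zd d} {e η : ℝ} {u : Zd d → ℂ} (h : Rs d V a e η u)
    (hη : 0 < η) (φ : H2 d) (ε : ℝ)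
    (he : ∀ x, -S φ x + (V x : ℂ) * φ x = (ε : ℂ) * φ x) :
    η * ‖inner ℂ φ (mk2 u h.sq)‖ ^ 2 = ‖φ a‖ ^ 2 * (η / ((ε - e) ^ 2 + η ^ 2)) := by
  have h1 := pair_eq h φ (sq_sum φ) ε he
  have h2 := congrArg (fun z => ‖z‖ ^ 2) h1
  simp only [norm_mul, mul_pow, Complex.norm_conj] at h2
  rw [den_norm] at h2
  have e1 : inner ℂ φ (mk2 u h.sq) = ∑' x, (starRingEnd ℂ) (φ x) * u x := by
    rw [inner_eq]
    rfl
  rw [e1, ← h2]
  have h3 : 0 < (ε - e) ^ 2 + η ^ 2 := by positivity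
  field_simp

theorem basis_part {ι : Type} {V : Zd d → ℝ} {a : Zd d} {e η : ℝ} {u : Zd d → ℂ}
    (h : Rs d V a e η u) (hη : 0 < η) (φ : HilbertBasis ι ℂ (H2 d)) (E : ι → ℝ)
    (he : ∀ n x, -S (φ n) x + (V x : ℂ) * φ n x = (E n : ℂ) * φ n x) (P : ι → Prop) (m0 ε : ℝ)
    (hm : m0 ≤ η * ∑' x, ‖u x‖ ^ 2)
    (hP : ∀ F : Finset {n // P n}, ∑ n ∈ F, ‖φ n.1 a‖ ^ 2 *
      (η / ((E n.1 - e) ^ 2 + η ^ 2)) ≤ ε) :
    (Summable fun n : {n // ¬ P n} => ‖φ n.1 a‖ ^ 2 * (η / ((E n.1 - e) ^ 2 + η ^ 2))) ∧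
    m0 - ε ≤ ∑' n : {n // ¬ P n}, ‖φ n.1 a‖ ^ 2 * (η / ((E n.1 - e) ^ 2 + η ^ 2)) := by
  obtain ⟨w, hw⟩ : ∃ w : ι → ℝ, w = fun n => ‖φ n a‖ ^ 2 * (η / ((E n - e) ^ 2 + η ^ 2)) :=
    ⟨_, rfl⟩
  have hwx : ∀ n, ‖φ n a‖ ^ 2 * (η / ((E n - e) ^ 2 + η ^ 2)) = w n := fun n => by rw [hw]
  have hw0 : ∀ n, 0 ≤ w n := fun n => by rw [← hwx]; positivity
  simp only [hwx] at hP ⊢
  have hsum : HasSum w (η * ∑' x, ‖u x‖ ^ 2) := by
    have h1 := (φ.hasSum_inner_mul_inner (mk2 u h.sq) (mk2 u h.sq)).mapL Complex.reCLM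
    have e1 : ∀ n, Complex.reCLM (inner ℂ (mk2 u h.sq) (φ n) * inner ℂ (φ n) (mk2 u h.sq)) =
        ‖inner ℂ (φ n) (mk2 u h.sq)‖ ^ 2 := by
      intro n
      rw [← inner_conj_symm (mk2 u h.sq) (φ n), Complex.reCLM_apply,
        ← Complex.normSq_eq_conj_mul_self, Complex.ofReal_re, Complex.normSq_eq_norm_sq]
    have e2 : Complex.reCLM (inner ℂ (mk2 u h.sq) (mk2 u h.sq)) = ∑' x, ‖u x‖ ^ 2 := by
      have e3 : ‖mk2 u h.sq‖ ^ 2 = ∑' x, ‖u x‖ ^ 2 := norm_sq_eq _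
      rw [inner_self_eq_norm_sq_to_K, ← e3, Complex.reCLM_apply]
      norm_cast
    rw [e2] at h1
    have h2 : HasSum (fun n => ‖inner ℂ (φ n) (mk2 u h.sq)‖ ^ 2) (∑' x, ‖u x‖ ^ 2) := by
      refine h1.congr_fun ?_ |> fun h => h
      intro n
      exact (e1 n).symm
    have h3 := h2.mul_left η
    refine h3.congr_fun ?_ |> fun h => h
    intro n
    rw [← hwx, ← ip_sq h hη (φ n) (E n) (he n)]
  have hs := hsum.summable
  have s1 : Summable fun n : {n // P n} => w n.1 := hs.subtype {n | P n}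
  have s2 : Summable fun n : {n // ¬ P n} => w n.1 := hs.subtype {n | P n}ᶜ
  refine ⟨s2, ?_⟩
  have h1 : ∑' n : {n // P n}, w n.1 ≤ ε :=
    Real.tsum_le_of_sum_le (fun n => hw0 n.1) hP
  have h2 : ∑' n : {n // P n}, w n.1 + ∑' n : {n // ¬ P n}, w n.1 = ∑' n, w n :=
    hs.tsum_subtype_add_tsum_subtype_compl {n | P n}
  rw [hsum.tsum_eq] at h2
  linarith

end Pool.Agent.V11260.Loc

namespace Pool.Agent.V11260.Loc

open Pool.Agent.H4R2.LO (Zd)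
open Pool.Agent.W788.LD.Spec (S)
open Pool.Agent.TH794.QE (Rs)

variable {d : ℕ} {ι : Type}

/-- an orthonormal family of functions -/
theorem ortho (φ : ι → Zd d → ℂ) (hs : ∀ n, Summable fun x => ‖φ n x‖ ^ 2)
    (h1 : ∀ n, ∑' x, ‖φ n x‖ ^ 2 = 1)
    (h0 : ∀ m n, m ≠ n → ∑' x, (starRingEnd ℂ) (φ m x) * φ n x = 0) :
    Orthonormal ℂ fun n => mk2 (φ n) (hs n) := by
  constructor
  · intro n
    have h2 : ‖mk2 (φ n) (hs n)‖ ^ 2 = 1 := by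
      rw [norm_sq_eq]
      simp only [mk2_apply]
      exact h1 n
    nlinarith [norm_nonneg (mk2 (φ n) (hs n))]
  · intro m n hmn
    simp only
    rw [inner_eq]
    simp only [mk2_apply]
    exact h0 m n hmn

theorem complete (φ : ι → Zd d → ℂ) (hs : ∀ n, Summable fun x => ‖φ n x‖ ^ 2)
    (hc : ∀ u : Zd d → ℂ, (Summable fun x => ‖u x‖ ^ 2) →
      (∀ n, ∑' x, (starRingEnd ℂ) (φ n x) * u x = 0) → ∀ x, u x = 0) :
    (Submodule.span ℂ (Set.range fun n => mk2 (φ n) (hs n)))ᗮ = ⊥ := by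
  rw [Submodule.eq_bot_iff]
  intro u hu
  rw [Submodule.mem_orthogonal] at hu
  have h1 : ∀ n, ∑' x, (starRingEnd ℂ) (φ n x) * u x = 0 := by
    intro n
    have h2 := hu _ (Submodule.subset_span (Set.mem_range_self n))
    rw [inner_eq] at h2
    exact h2
  have h3 := hc u (sq_sum u) h1
  ext x
  rw [h3 x]
  rfl

theorem basis_part2 {V : Zd d → ℝ} {a : Zd d} {e η : ℝ} {u : Zd d → ℂ}
    (h : Rs d V a e η u) (hη : 0 < η) (φ : ι → Zd d → ℂ)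
    (hs : ∀ n, Summable fun x => ‖φ n x‖ ^ 2) (h1 : ∀ n, ∑' x, ‖φ n x‖ ^ 2 = 1)
    (h0 : ∀ m n, m ≠ n → ∑' x, (starRingEnd ℂ) (φ m x) * φ n x = 0)
    (hc : ∀ u : Zd d → ℂ, (Summable fun x => ‖u x‖ ^ 2) →
      (∀ n, ∑' x, (starRingEnd ℂ) (φ n x) * u x = 0) → ∀ x, u x = 0) (E : ι → ℝ)
    (he : ∀ n x, -S (φ n) x + (V x : ℂ) * φ n x = (E n : ℂ) * φ n x) (P : ι → Prop) (m0 ε : ℝ)
    (hm : m0 ≤ η * ∑' x, ‖u x‖ ^ 2)
    (hP : ∀ F : Finset {n // P n}, ∑ n ∈ F, ‖φ n.1 a‖ ^ 2 *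
      (η / ((E n.1 - e) ^ 2 + η ^ 2)) ≤ ε) :
    (Summable fun n : {n // ¬ P n} => ‖φ n.1 a‖ ^ 2 * (η / ((E n.1 - e) ^ 2 + η ^ 2))) ∧
    m0 - ε ≤ ∑' n : {n // ¬ P n}, ‖φ n.1 a‖ ^ 2 * (η / ((E n.1 - e) ^ 2 + η ^ 2)) := by
  have ho := ortho φ hs h1 h0
  have hsp := complete φ hs hc
  have hb : ∀ n, HilbertBasis.mkOfOrthogonalEqBot ho hsp n = mk2 (φ n) (hs n) := fun n => by
    rw [HilbertBasis.coe_mkOfOrthogonalEqBot]
  have h2 := basis_part h hη (HilbertBasis.mkOfOrthogonalEqBot ho hsp) E (fun n x => by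
    rw [hb]
    exact he n x) P m0 ε hm (fun F => by
    refine le_trans (le_of_eq ?_) (hP F)
    refine Finset.sum_congr rfl fun n _ => ?_
    rw [hb, mk2_apply])
  simp only [hb, mk2_apply] at h2
  exact h2

end Pool.Agent.V11260.Loc
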