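import Pool.Agent.V11260.Loc.Pair

/-! The eigenfunction correlator of exponentially localized eigenfunctions. -/

set_option autoImplicit false

open MeasureTheory Set Filter
open scoped BigOperators Topology ENNReal

namespace Pool.Agent.V11260.Loc

open Pool.Agent.H4R2.LO (Zd)

variable {d : ℕ}

/-- the lattice sum -/
noncomputable def Z (d : ℕ) (m : ℝ) : ℝ := ∑' x : Zd d, Real.exp (-(m * ‖x‖))

theorem sE (m : ℝ) (hm : 0 < m) : Summable fun x : Zd d => Real.exp (-(m * ‖x‖)) :=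
  Pool.Agent.H4R2.LO.Main.summable_exp m hm

theorem sE' (m : ℝ) (hm : 0 < m) (c : Zd d) :
    (Summable fun x : Zd d => Real.exp (-(m * ‖x - c‖))) ∧
    ∑' x : Zd d, Real.exp (-(m * ‖x - c‖)) = Z d m := by
  have h1 := (Equiv.subRight c).summable_iff.2 (sE (d := d) m hm)
  have h2 := (Equiv.subRight c).tsum_eq fun x : Zd d => Real.exp (-(m * ‖x‖))
  exact ⟨h1, h2⟩

theorem Z_one (m : ℝ) (hm : 0 < m) : 1 ≤ Z d m := by
  have h := (sE (d := d) m hm).le_tsum 0 fun _ _ => (Real.exp_pos _).le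
  simpa [Z] using h

theorem mass_c (φ : H2 d) (h1 : ‖φ‖ = 1) (A m : ℝ) (hA : 0 < A) (hm : 0 < m) (c : Zd d)
    (hφ : ∀ x, ‖φ x‖ ≤ A * Real.exp (-(m * ‖x - c‖))) :
    1 ≤ A ^ 2 * Z d (m / 2) * ∑' y, ‖φ y‖ ^ 2 * Real.exp (-(m / 2 * ‖y - c‖)) := by
  obtain ⟨s0, e0⟩ := sE' (m / 2) (half_pos hm) c
  have hZ := Z_one (d := d) (m / 2) (half_pos hm)
  have hs := sq_sum φ
  have hone : ∑' y, ‖φ y‖ ^ 2 = 1 := by rw [← norm_sq_eq, h1, one_pow]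
  have hup : ∀ y, ‖φ y‖ ^ 2 * Real.exp (m / 2 * ‖y - c‖) ≤
      A ^ 2 * Real.exp (-(m / 2 * ‖y - c‖)) := by
    intro y
    have h2 : ‖φ y‖ ^ 2 ≤ (A * Real.exp (-(m * ‖y - c‖))) ^ 2 :=
      pow_le_pow_left₀ (norm_nonneg _) (hφ y) 2
    have h3 : (A * Real.exp (-(m * ‖y - c‖))) ^ 2 * Real.exp (m / 2 * ‖y - c‖) ≤
        A ^ 2 * Real.exp (-(m / 2 * ‖y - c‖)) := by
      rw [mul_pow, ← Real.exp_nat_mul, mul_assoc, ← Real.exp_add]
      refine mul_le_mul_of_nonneg_left (Real.exp_le_exp.2 ?_) (sq_nonneg A)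
      have := mul_nonneg hm.le (norm_nonneg (y - c))
      push_cast
      linarith
    exact (mul_le_mul_of_nonneg_right h2 (Real.exp_pos _).le).trans h3
  have s1 : Summable fun y => ‖φ y‖ ^ 2 * Real.exp (m / 2 * ‖y - c‖) :=
    Summable.of_nonneg_of_le (fun y => by positivity) hup (s0.mul_left _)
  have hle1 : ∀ y, Real.exp (-(m / 2 * ‖y - c‖)) ≤ 1 := fun y => by
    apply Real.exp_le_one_iff.2
    have := mul_nonneg hm.le (norm_nonneg (y - c))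
    linarith
  have s2 : Summable fun y => ‖φ y‖ ^ 2 * Real.exp (-(m / 2 * ‖y - c‖)) :=
    Summable.of_nonneg_of_le (fun y => by positivity)
      (fun y => mul_le_of_le_one_right (sq_nonneg _) (hle1 y)) hs
  have hT1 : ∑' y, ‖φ y‖ ^ 2 * Real.exp (m / 2 * ‖y - c‖) ≤ A ^ 2 * Z d (m / 2) := by
    rw [← e0, ← tsum_mul_left]
    exact s1.tsum_le_tsum hup (s0.mul_left _)
  obtain ⟨M, hM⟩ : ∃ M, M = A ^ 2 * Z d (m / 2) := ⟨_, rfl⟩
  have hM0 : 0 < M := by rw [hM]; positivity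
  rw [← hM] at hT1 ⊢
  have hpt : ∀ y, 2 * ‖φ y‖ ^ 2 ≤ M * (‖φ y‖ ^ 2 * Real.exp (-(m / 2 * ‖y - c‖))) +
      M⁻¹ * (‖φ y‖ ^ 2 * Real.exp (m / 2 * ‖y - c‖)) := by
    intro y
    have h2 : 2 ≤ M * Real.exp (-(m / 2 * ‖y - c‖)) + M⁻¹ * Real.exp (m / 2 * ‖y - c‖) := by
      obtain ⟨t, ht⟩ : ∃ t, t = M * Real.exp (-(m / 2 * ‖y - c‖)) := ⟨_, rfl⟩
      have ht0 : 0 < t := by rw [ht]; positivity
      have e1 : M⁻¹ * Real.exp (m / 2 * ‖y - c‖) = t⁻¹ := by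
        rw [ht, mul_inv, ← Real.exp_neg, neg_neg]
      rw [← ht, e1]
      have h3 : t * t⁻¹ = 1 := mul_inv_cancel₀ ht0.ne'
      have h4 : 0 < t⁻¹ := inv_pos.2 ht0
      nlinarith [sq_nonneg (t - t⁻¹), sq_nonneg (t - 1), sq_nonneg (t⁻¹ - 1)]
    calc 2 * ‖φ y‖ ^ 2 ≤ (M * Real.exp (-(m / 2 * ‖y - c‖)) +
        M⁻¹ * Real.exp (m / 2 * ‖y - c‖)) * ‖φ y‖ ^ 2 := by gcongr
      _ = _ := by ring
  have h5 := (hs.mul_left 2).tsum_le_tsum hpt ((s2.mul_left M).add (s1.mul_left M⁻¹))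
  rw [tsum_mul_left, hone, (s2.mul_left M).tsum_add (s1.mul_left M⁻¹), tsum_mul_left,
    tsum_mul_left] at h5
  have h6 : M⁻¹ * ∑' y, ‖φ y‖ ^ 2 * Real.exp (m / 2 * ‖y - c‖) ≤ 1 := by
    rw [inv_mul_le_iff₀ hM0, mul_one]
    exact hT1
  linarith

section

variable {ι : Type} {φ : ι → H2 d}

theorem sum_w (ho : Orthonormal ℂ φ) (A m : ℝ) (hA : 0 < A) (hm : 0 < m) (c : ι → Zd d)
    (hφ : ∀ n x, ‖φ n x‖ ≤ A * Real.exp (-(m * ‖x - c n‖))) (a : Zd d) (F : Finset ι) :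
    ∑ n ∈ F, Real.exp (-(m / 2 * ‖a - c n‖)) ≤ A ^ 2 * Z d (m / 2) * Z d (m / 2) := by
  obtain ⟨s0, e0⟩ := sE' (m / 2) (half_pos hm) a
  have hZ := Z_one (d := d) (m / 2) (half_pos hm)
  have hM0 : 0 ≤ A ^ 2 * Z d (m / 2) := by positivity
  have hs2 : ∀ n, Summable fun y => ‖φ n y‖ ^ 2 * Real.exp (-(m / 2 * ‖y - a‖)) := fun n =>
    Summable.of_nonneg_of_le (fun y => by positivity)
      (fun y => mul_le_of_le_one_right (sq_nonneg _) (by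
        apply Real.exp_le_one_iff.2
        have := mul_nonneg hm.le (norm_nonneg (y - a))
        linarith)) (sq_sum (φ n))
  have hs3 : ∀ n, Summable fun y => ‖φ n y‖ ^ 2 * Real.exp (-(m / 2 * ‖y - c n‖)) := fun n =>
    Summable.of_nonneg_of_le (fun y => by positivity)
      (fun y => mul_le_of_le_one_right (sq_nonneg _) (by
        apply Real.exp_le_one_iff.2
        have := mul_nonneg hm.le (norm_nonneg (y - c n))
        linarith)) (sq_sum (φ n))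
  have h1 : ∀ n ∈ F, Real.exp (-(m / 2 * ‖a - c n‖)) ≤ A ^ 2 * Z d (m / 2) *
      ∑' y, ‖φ n y‖ ^ 2 * Real.exp (-(m / 2 * ‖y - a‖)) := by
    intro n _
    have h2 := mass_c (φ n) (ho.1 n) A m hA hm (c n) (hφ n)
    have h3 : Real.exp (-(m / 2 * ‖a - c n‖)) * ∑' y, ‖φ n y‖ ^ 2 *
        Real.exp (-(m / 2 * ‖y - c n‖)) ≤ ∑' y, ‖φ n y‖ ^ 2 * Real.exp (-(m / 2 * ‖y - a‖)) := by
      rw [← tsum_mul_left]
      refine ((hs3 n).mul_left _).tsum_le_tsum (fun y => ?_) (hs2 n)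
      have h4 : Real.exp (-(m / 2 * ‖a - c n‖)) * Real.exp (-(m / 2 * ‖y - c n‖)) ≤
          Real.exp (-(m / 2 * ‖y - a‖)) := by
        rw [← Real.exp_add]
        apply Real.exp_le_exp.2
        have h5 : ‖y - a‖ ≤ ‖y - c n‖ + ‖a - c n‖ := by
          have h6 : y - a = (y - c n) - (a - c n) := by abel
          rw [h6]
          exact norm_sub_le _ _
        nlinarith
      calc Real.exp (-(m / 2 * ‖a - c n‖)) * (‖φ n y‖ ^ 2 * Real.exp (-(m / 2 * ‖y - c n‖))) =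
          ‖φ n y‖ ^ 2 * (Real.exp (-(m / 2 * ‖a - c n‖)) *
            Real.exp (-(m / 2 * ‖y - c n‖))) := by ring
        _ ≤ _ := mul_le_mul_of_nonneg_left h4 (sq_nonneg _)
    calc Real.exp (-(m / 2 * ‖a - c n‖)) = Real.exp (-(m / 2 * ‖a - c n‖)) * 1 := (mul_one _).symm
      _ ≤ Real.exp (-(m / 2 * ‖a - c n‖)) * (A ^ 2 * Z d (m / 2) *
          ∑' y, ‖φ n y‖ ^ 2 * Real.exp (-(m / 2 * ‖y - c n‖))) :=
          mul_le_mul_of_nonneg_left h2 (Real.exp_pos _).le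
      _ = A ^ 2 * Z d (m / 2) * (Real.exp (-(m / 2 * ‖a - c n‖)) *
          ∑' y, ‖φ n y‖ ^ 2 * Real.exp (-(m / 2 * ‖y - c n‖))) := by ring
      _ ≤ _ := mul_le_mul_of_nonneg_left h3 hM0
  refine (Finset.sum_le_sum h1).trans ?_
  rw [← Finset.mul_sum]
  refine mul_le_mul_of_nonneg_left ?_ hM0
  rw [← Summable.tsum_finsetSum fun n _ => hs2 n, ← e0]
  refine (summable_sum fun n _ => hs2 n).tsum_le_tsum (fun y => ?_) s0
  rw [← Finset.sum_mul]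
  exact mul_le_of_le_one_left (Real.exp_pos _).le (bessel_pt ho F y)

/-- **the correlator** -/
theorem corr (ho : Orthonormal ℂ φ) (A m : ℝ) (hA : 0 < A) (hm : 0 < m) (c : ι → Zd d)
    (hφ : ∀ n x, ‖φ n x‖ ≤ A * Real.exp (-(m * ‖x - c n‖))) (a x : Zd d) (F : Finset ι) :
    ∑ n ∈ F, ‖φ n a‖ * ‖φ n x‖ ≤
      A ^ 4 * Z d (m / 2) ^ 2 * Real.exp (-(m / 2 * ‖x - a‖)) := by
  have h1 : ∀ n ∈ F, ‖φ n a‖ * ‖φ n x‖ ≤ A ^ 2 * Real.exp (-(m / 2 * ‖x - a‖)) *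
      Real.exp (-(m / 2 * ‖a - c n‖)) := by
    intro n _
    have h2 : ‖φ n a‖ * ‖φ n x‖ ≤ (A * Real.exp (-(m * ‖a - c n‖))) *
        (A * Real.exp (-(m * ‖x - c n‖))) :=
      mul_le_mul (hφ n a) (hφ n x) (norm_nonneg _) (by positivity)
    refine h2.trans ?_
    have e1 : (A * Real.exp (-(m * ‖a - c n‖))) * (A * Real.exp (-(m * ‖x - c n‖))) =
        A ^ 2 * Real.exp (-(m * ‖a - c n‖) + -(m * ‖x - c n‖)) := by
      rw [Real.exp_add]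
      ring
    rw [e1, mul_assoc, ← Real.exp_add]
    refine mul_le_mul_of_nonneg_left (Real.exp_le_exp.2 ?_) (sq_nonneg A)
    have h5 : ‖x - a‖ ≤ ‖x - c n‖ + ‖a - c n‖ := by
      have h6 : x - a = (x - c n) - (a - c n) := by abel
      rw [h6]
      exact norm_sub_le _ _
    have h7 := mul_nonneg hm.le (norm_nonneg (a - c n))
    have h8 := mul_nonneg hm.le (norm_nonneg (x - c n))
    nlinarith
  refine (Finset.sum_le_sum h1).trans ?_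
  rw [← Finset.mul_sum]
  have h2 := sum_w ho A m hA hm c hφ a F
  calc A ^ 2 * Real.exp (-(m / 2 * ‖x - a‖)) * ∑ n ∈ F, Real.exp (-(m / 2 * ‖a - c n‖)) ≤
      A ^ 2 * Real.exp (-(m / 2 * ‖x - a‖)) * (A ^ 2 * Z d (m / 2) * Z d (m / 2)) := by gcongr
    _ = _ := by ring

end

end Pool.Agent.V11260.Loc
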