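import Pool.Agent.V11260.QT.Mass
import Pool.Agent.TH794.HK.FinM

/-! An upper bound for the free density of states in the bulk. -/

set_option autoImplicit false

open MeasureTheory Set Filter
open scoped BigOperators Topology ENNReal

namespace Pool.Agent.V11260.Loc

open Pool.Agent.W788.BK
open Pool.Agent.TH794.QD (GF F0 F1)
open Pool.Agent.TH794.QE (BAmp bamp0 holS0)
open Pool.Agent.V11260.QT

theorem GF_one (F : ℝ → ℂ) (hF : BAmp F) (E : ℝ) :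
    ‖GF F ((E : ℂ) + ((1 : ℝ) : ℂ) * Complex.I)‖ ≤ 1 := by
  rw [GF_Lap, norm_mul, Complex.norm_I, one_mul]
  unfold Lap
  have h1 : ‖∫ s in Ioi (0 : ℝ), Complex.exp ((Complex.I * E - ((1 : ℝ) : ℂ)) * s) * F s‖ ≤
      ∫ s in Ioi (0 : ℝ), Real.exp (-1 * s) := by
    refine norm_integral_le_of_norm_le (exp_int 1 one_pos) (Eventually.of_forall fun s => ?_)
    rw [norm_mul, Complex.norm_exp]
    have e1 : ((Complex.I * E - ((1 : ℝ) : ℂ)) * s).re = -1 * s := by simp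
    rw [e1]
    exact mul_le_of_le_one_right (Real.exp_pos _).le (hF.one s)
  rw [Pool.Agent.TH794.QD.exp_val 1 one_pos, inv_one] at h1
  exact h1

theorem GF_ub (hO : S_OSC) (d : ℕ) (hd : 2 ≤ d) (κ : ℝ) (hκ : 0 < κ) (hκ1 : κ ≤ 1) :
    ∃ C : ℝ, 1 ≤ C ∧ ∀ E ∈ SR d κ, ∀ t : ℝ, 0 < t → t ≤ 1 →
      ‖GF (F0 d) ((E : ℂ) + (t : ℂ) * Complex.I)‖ ≤ C := by
  have hdiff : ∀ E t : ℝ, ((E : ℂ) + (t : ℂ) * Complex.I) -
      ((E : ℂ) + ((1 : ℝ) : ℂ) * Complex.I) = ((t - 1 : ℝ) : ℂ) * Complex.I := by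
    intro E t
    push_cast
    ring
  have hn : ∀ E t : ℝ, 0 < t → t ≤ 1 → ‖((E : ℂ) + (t : ℂ) * Complex.I) -
      ((E : ℂ) + ((1 : ℝ) : ℂ) * Complex.I)‖ ^ (1 / 8 : ℝ) ≤ 1 := by
    intro E t h0 h1
    rw [hdiff, norm_mul, Complex.norm_I, mul_one, Complex.norm_real, Real.norm_eq_abs]
    refine Real.rpow_le_one (abs_nonneg _) ?_ (by norm_num)
    rw [abs_le]
    constructor <;> linarith
  by_cases h2 : d = 2
  · subst h2
    have hCH := Pool.Agent.TH311.LL2D.CH_ge κ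
    refine ⟨1 + 2 * Pool.Agent.TH311.LL2D.CH κ, by linarith, fun E hE t h0 h1 => ?_⟩
    have hB : Pool.Agent.TH311.LL2D.Bu κ E := by
      obtain ⟨a1, a2⟩ := hE
      refine ⟨a1, ?_⟩
      push_cast at a2
      linarith
    have h3 := holS0 κ hκ hκ1 ((E : ℂ) + (t : ℂ) * Complex.I)
      ((E : ℂ) + ((1 : ℝ) : ℂ) * Complex.I) (by simpa using hB) (by simpa using hB)
      (by simpa using h0) (by simpa using h1) (by simp) (by simp)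
    have h4 := GF_one (F0 2) (bamp0 2) E
    have h5 := norm_sub_norm_le (GF (F0 2) ((E : ℂ) + (t : ℂ) * Complex.I))
      (GF (F0 2) ((E : ℂ) + ((1 : ℝ) : ℂ) * Complex.I))
    have h6 : 2 * Pool.Agent.TH311.LL2D.CH κ * ‖((E : ℂ) + (t : ℂ) * Complex.I) -
      ((E : ℂ) + ((1 : ℝ) : ℂ) * Complex.I)‖ ^ (1 / 8 : ℝ) ≤
        2 * Pool.Agent.TH311.LL2D.CH κ * 1 :=
      mul_le_mul_of_nonneg_left (hn E t h0 h1) (by linarith)
    linarith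
  · have hd3 : 3 ≤ d := by omega
    have hCH := Pool.Agent.TH794.QD.CH_nonneg d
    refine ⟨1 + Pool.Agent.TH794.QD.CH d, by linarith, fun E hE t h0 h1 => ?_⟩
    have h3 := Pool.Agent.TH794.QD.hol0 hO d hd3 ((E : ℂ) + (t : ℂ) * Complex.I)
      ((E : ℂ) + ((1 : ℝ) : ℂ) * Complex.I) (by simpa using h0.le) (by simp)
    have h4 := GF_one (F0 d) (bamp0 d) E
    have h5 := norm_sub_norm_le (GF (F0 d) ((E : ℂ) + (t : ℂ) * Complex.I))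
      (GF (F0 d) ((E : ℂ) + ((1 : ℝ) : ℂ) * Complex.I))
    have h6 : Pool.Agent.TH794.QD.CH d * ‖((E : ℂ) + (t : ℂ) * Complex.I) -
      ((E : ℂ) + ((1 : ℝ) : ℂ) * Complex.I)‖ ^ (1 / 8 : ℝ) ≤ Pool.Agent.TH794.QD.CH d * 1 :=
      mul_le_mul_of_nonneg_left (hn E t h0 h1) hCH
    linarith

theorem im_ub (hO : S_OSC) (d : ℕ) (hd : 2 ≤ d) (κ : ℝ) (hκ : 0 < κ) (hκ1 : κ ≤ 1) :
    ∃ C : ℝ, 1 ≤ C ∧ ∀ γ0 : ℝ → ℂ, (∀ E, E ∈ S0 d →
      Tendsto (fun t : ℝ => GF (F0 d) ((E : ℂ) + (t : ℂ) * Complex.I)) (𝓝[>] 0) (𝓝 (γ0 E))) →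
      ∀ E ∈ SR d κ, (γ0 E).im ≤ C := by
  obtain ⟨C, hC, h⟩ := GF_ub hO d hd κ hκ hκ1
  refine ⟨C, hC, fun γ0 hγ E hE => ?_⟩
  have h1 := (hγ E (SR_sub d κ hκ hE)).norm
  have hmem : Set.Ioc (0 : ℝ) 1 ∈ 𝓝[>] (0 : ℝ) := Ioc_mem_nhdsGT one_pos
  have h2 : ‖γ0 E‖ ≤ C := by
    refine le_of_tendsto h1 ?_
    filter_upwards [hmem] with t ht
    exact h E hE t ht.1 ht.2
  exact ((le_abs_self _).trans (Complex.abs_im_le_norm _)).trans h2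

end Pool.Agent.V11260.Loc
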