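import Pool.Agent.V11260.Loc.Near
import Pool.Agent.V11260.Loc.Ub
import Pool.Agent.V11260.QT.MsdT

/-! Lower bound for the localization length. -/

set_option autoImplicit false

open MeasureTheory Set Filter
open scoped BigOperators Topology ENNReal

namespace Pool.Agent.V11260.Loc

open Pool.Agent.W788.BK
open Pool.Agent.H4R2.LO (Zd)
open Pool.Agent.W788.LD.Spec (S)
open Pool.Agent.TH794.QD (GF F0 F1)
open Pool.Agent.TH794.QE (Rs RegE)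
open Pool.Agent.TH794.HK (ph Tg EngK)
open Pool.Agent.V11260.QT

theorem exp_ev (K P κ δ ε : ℝ) (hκ : 0 < κ) (hδ : 0 < δ) (hε : 0 < ε) :
    ∀ᶠ c in 𝓝[>] (0 : ℝ), K * c ^ (-P) * Real.exp (-(κ * c ^ (-δ))) ≤ ε := by
  have h1 := tendsto_rpow_mul_exp_neg_mul_atTop_nhds_zero (P / δ) κ hκ
  have h2 : Tendsto (fun c : ℝ => c ^ (-δ)) (𝓝[>] 0) atTop := by
    have h3 := (tendsto_rpow_atTop hδ).comp (tendsto_inv_nhdsGT_zero (𝕜 := ℝ))
    refine h3.congr' ?_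
    filter_upwards [self_mem_nhdsWithin] with c hc
    have hc0 : 0 < c := hc
    simp only [Function.comp]
    rw [Real.inv_rpow hc0.le, Real.rpow_neg hc0.le]
  have h4 := ((h1.comp h2).const_mul K)
  rw [mul_zero] at h4
  filter_upwards [h4.eventually (gt_mem_nhds hε), self_mem_nhdsWithin] with c hc hc0
  have hc0' : 0 < c := hc0
  simp only [Function.comp] at hc
  rw [← Real.rpow_mul hc0'.le] at hc
  have e1 : -δ * (P / δ) = -P := by field_simp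
  rw [e1] at hc
  refine le_trans (le_of_eq ?_) hc.le
  rw [mul_assoc, neg_mul]

theorem var_le (μ : Measure ℝ) [IsProbabilityMeasure μ] (b M V : ℝ)
    (hμb : ∀ᵐ s ∂μ, |s| ≤ b) (hM : ∫ s, s ∂μ = M) (hV : ∫ s, (s - M) ^ 2 ∂μ = V) :
    V ≤ 4 * b ^ 2 := by
  have hMb : |M| ≤ b := by
    rw [← hM, ← Real.norm_eq_abs]
    have h1 := norm_integral_le_of_norm_le_const (μ := μ) (f := fun s : ℝ => s) (C := b) (by
      filter_upwards [hμb] with s hs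
      rw [Real.norm_eq_abs]
      exact hs)
    rw [probReal_univ, mul_one] at h1
    exact h1
  rw [← hV]
  have h6 : ∫ s, (s - M) ^ 2 ∂μ ≤ ∫ _s, 4 * b ^ 2 ∂μ := by
    apply integral_mono_of_nonneg (Eventually.of_forall fun s => sq_nonneg _)
      (integrable_const _)
    filter_upwards [hμb] with s hs
    have h7 : |s - M| ≤ 2 * b := by
      have := abs_sub s M
      linarith
    calc (s - M) ^ 2 = |s - M| ^ 2 := (sq_abs _).symm
      _ ≤ (2 * b) ^ 2 := by gcongr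
      _ = 4 * b ^ 2 := by ring
  rw [integral_const, probReal_univ, one_smul] at h6
  exact h6

/-- **localization lengths** -/
theorem loc_main (hES : S_ES) (hTH : S_THIRD) (hFL : S_FLUCT) (hIN : S_INV)
    (hSU : S_SUP) (hQB : S_QB) (hLO : S_LOW) (hAD : S_ADM) (hFA : S_FAC) (hO : S_OSC)
    (d : ℕ) (hd : 2 ≤ d) (κ : ℝ) (hκ : 0 < κ) (hκ1 : κ ≤ 1) : ∃ m0 : ℝ, 0 < m0 ∧
    ∀ b v C δ ε : ℝ, 0 < b → 0 < v → 0 < δ → δ ≤ 1 → 0 < ε →
    ∃ c0 : ℝ, 0 < c0 ∧ ∀ c : ℝ, 0 < c → c ≤ c0 →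
    ∀ (μ : Measure ℝ), IsProbabilityMeasure μ → (∀ᵐ s ∂μ, |s| ≤ b) →
    ∀ Mn V : ℝ, ∫ s, s ∂μ = Mn → ∫ s, (s - Mn) ^ 2 ∂μ = V → v ≤ V →
      ∃ G : Set (Zd d → ℝ), MeasurableSet G ∧
        1 - Real.exp (-c ^ (-(1 / 101) : ℝ)) ≤
          (Measure.infinitePi fun _ : Zd d => μ).real G ∧
        ∀ ω ∈ G, (∀ x, |ω x| ≤ b) ∧
          ∀ a : Zd d, ‖a‖ ≤ Real.exp (c ^ (-(1 / 101) : ℝ)) →
          ∀ e : ℝ, 2 * d + c * Mn - e ∈ SR d κ →
          ∀ u : Zd d → ℂ, Rs d (fun x => 2 * d + c * ω x) a e (c ^ (81 / 40 : ℝ)) u →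
            m0 ≤ c ^ (81 / 40 : ℝ) * ∑' x, ‖u x‖ ^ 2 ∧
            ∀ {ι : Type} (φ : ι → H2 d), Orthonormal ℂ φ → ∀ E : ι → ℝ,
              (∀ n x, -S (φ n) x + ((2 * d + c * ω x : ℝ) : ℂ) * φ n x = (E n : ℂ) * φ n x) →
              ∀ cen : ι → Zd d, (∀ n x, ‖φ n x‖ ≤
                c ^ (-C) * Real.exp (-(c ^ (161 / 80 - δ) * ‖x - cen n‖))) →
              ∀ F : Finset ι, ∑ n ∈ F, ‖φ n a‖ ^ 2 *
                (c ^ (81 / 40 : ℝ) / ((E n - e) ^ 2 + (c ^ (81 / 40 : ℝ)) ^ 2)) ≤ ε := by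
  obtain ⟨γ0, γ1, h⟩ := Pool.Agent.TH794.HK.engK_all hES hTH hFL hIN hSU hQB hLO hAD hFA hO d hd
  obtain ⟨Cu, hCu, hub⟩ := im_ub hO d hd κ hκ hκ1
  have hreg : ∀ κ E : ℝ, 0 < κ → E ∈ SR d κ → RegE d κ E ∧ |E| ≤ 2 * d - κ := by
    rintro κ E hκ ⟨h1, h2⟩
    refine ⟨?_, h2⟩
    by_cases hd2 : d = 2
    · refine Or.inl ⟨hd2, h1, ?_⟩
      rw [hd2] at h2
      push_cast at h2
      linarith
    · refine Or.inr ⟨by omega, ?_⟩
      have hd0 : (0 : ℝ) ≤ d := Nat.cast_nonneg d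
      linarith
  have hγ0 : ∀ E, E ∈ S0 d → Tendsto (fun t : ℝ => GF (F0 d) ((E : ℂ) + (t : ℂ) * Complex.I))
      (𝓝[>] 0) (𝓝 (γ0 E)) := by
    intro E hE
    obtain ⟨hE0, hE4⟩ := hE
    obtain ⟨k, hk⟩ : ∃ k, k = min 1 (min |E| (2 * d - |E|)) := ⟨_, rfl⟩
    have hk0 : 0 < k := by
      rw [hk]
      exact lt_min one_pos (lt_min hE0 (by linarith))
    have hk1 : k ≤ 1 := by rw [hk]; exact min_le_left _ _
    have hk2 : k ≤ |E| := by rw [hk]; exact (min_le_right _ _).trans (min_le_left _ _)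
    have hk3 : |E| ≤ 2 * d - k := by
      have : k ≤ 2 * d - |E| := by rw [hk]; exact (min_le_right _ _).trans (min_le_right _ _)
      linarith
    exact ((h k hk0 hk1).1 E (hreg k E hk0 ⟨hk2, hk3⟩).1).1
  obtain ⟨h1, ⟨m1, hm1, h2⟩, h3⟩ := h κ hκ hκ1
  refine ⟨m1 / 2, half_pos hm1, fun b v C δ ε hb hv hδ hδ1 hε => ?_⟩
  obtain ⟨Kz, hKz, hZb⟩ := Zb d
  -- the parameters
  obtain ⟨N, hN⟩ : ∃ N : ℕ, N = ⌈16 * (Cu + 1) / ε⌉₊ + 1 := ⟨_, rfl⟩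
  have hN1 : 1 ≤ N := by omega
  have hN0 : (0 : ℝ) < N := by exact_mod_cast hN1
  have hNε : 4 * (Cu + 1) / N ≤ ε / 4 := by
    have h4 : 16 * (Cu + 1) / ε ≤ N := by
      have h5 := Nat.le_ceil (16 * (Cu + 1) / ε)
      rw [hN]
      push_cast
      linarith
    rw [div_le_iff₀ hε] at h4
    rw [div_le_iff₀ hN0]
    linarith
  obtain ⟨L2, hL2⟩ : ∃ L2, L2 = 32 * Cu ^ 3 / (ε * m1) := ⟨_, rfl⟩
  have hCu0 : 0 < Cu := by linarith
  have hL20 : 0 < L2 := by rw [hL2]; positivity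
  obtain ⟨c1, hc1, h4⟩ := Pool.Agent.TH794.HK.finL d
    (fun E => RegE d κ E ∧ |E| ≤ 2 * d - κ) γ0 γ1 b v (N ^ 2 * L2) hb hv (by positivity)
    (h3 (2 * b) v (2 * (N ^ 2 * L2)) (by positivity) hv (by positivity)) fun E hE => by
      obtain ⟨-, -, h5, h6⟩ := h1 E hE.1
      have h7 := h2 E hE.1 hE.2
      exact ⟨by linarith, h5, h6⟩
  obtain ⟨κ1, hκ1'⟩ : ∃ κ1, κ1 = 1 / (4 * (N * Real.sqrt (L2 * (4 * b ^ 2)))) := ⟨_, rfl⟩
  have hκ10 : 0 < κ1 := by rw [hκ1']; positivity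
  obtain ⟨P, hP⟩ : ∃ P, P = 81 / 40 + 4 * C + (161 / 80 - δ) * (3 * (d + 1)) := ⟨_, rfl⟩
  obtain ⟨Kt, hKt⟩ : ∃ Kt, Kt = 2 * (Cu + 1) * (Kz ^ 3 * 4 ^ (3 * (d + 1))) := ⟨_, rfl⟩
  obtain ⟨c2, hc2, hnum⟩ := ev_ex (((small_ev 3 (1 / 200) (ε / 32) (by norm_num)
    (by positivity)).and (small_ev 1 (1 / 200) (min (m1 / 2) 1) (by norm_num)
    (lt_min (half_pos hm1) one_pos))).and (exp_ev Kt P κ1 δ (ε / 2) hκ10 hδ (by positivity)))
  refine ⟨min (min c1 c2) 1, lt_min (lt_min hc1 hc2) one_pos,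
    fun c hc hcc μ hμ hμb Mn V hM hV hvV => ?_⟩
  obtain ⟨⟨n1, n2⟩, n3⟩ := hnum c hc (hcc.trans ((min_le_left _ _).trans (min_le_right _ _)))
  have hcle1 : c ≤ 1 := hcc.trans (min_le_right _ _)
  obtain ⟨G, hG, hGP, hL⟩ := h4 c hc (hcc.trans ((min_le_left _ _).trans (min_le_left _ _)))
    μ hμ hμb Mn V hM hV hvV
  have hVb := var_le μ b Mn V hμb hM hV
  have hV0 : 0 < V := hv.trans_le hvV
  refine ⟨G, hG, hGP, fun ω hω => ?_⟩
  obtain ⟨hωb, hL'⟩ := hL ω hω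
  refine ⟨hωb, fun a ha e he u hu => ?_⟩
  obtain ⟨η, hη⟩ : ∃ η, η = c ^ (81 / 40 : ℝ) := ⟨_, rfl⟩
  rw [← hη] at hu ⊢
  have hη0 : 0 < η := by rw [hη]; positivity
  have hη1 : c ^ (81 / 40 : ℝ) ≤ η := hη.ge
  have hη2 : η ≤ c ^ (161 / 80 : ℝ) := by
    rw [hη]
    exact Real.rpow_le_rpow_of_exponent_ge hc hcle1 (by norm_num)
  have hηle : η ≤ 1 := by
    rw [hη]
    exact Real.rpow_le_one hc.le hcle1 (by norm_num)
  obtain ⟨s2, hs2⟩ : ∃ s2, s2 = c ^ 2 * V := ⟨_, rfl⟩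
  have hs20 : 0 < s2 := by rw [hs2]; positivity
  rw [← hs2] at hL'
  have hB := hreg κ _ hκ he
  obtain ⟨E0, hE0⟩ : ∃ E0, E0 = 2 * (d : ℝ) + c * Mn - e := ⟨_, rfl⟩
  rw [← hE0] at he hB
  obtain ⟨x1, hx1⟩ : ∃ x, x = c ^ (1 / 200 : ℝ) := ⟨_, rfl⟩
  rw [← hx1] at n1 n2
  have hx10 : 0 ≤ x1 := by rw [hx1]; positivity
  have hlaw : ∀ p : Fin d → ℝ, ∑ i, p i ^ 2 ≤ N ^ 2 * L2 * (η * s2) →
      ‖((η : ℝ) : ℂ) * ∑' x, ph p (x - a) * ((‖u x‖ ^ 2 : ℝ) : ℂ) -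
        ((Tg γ0 γ1 η s2 E0 p : ℝ) : ℂ)‖ ≤ x1 := by
    intro p hp
    have h5 := hL' a ha e (by rw [← hE0]; exact hB) η hη1 hη2 u hu p hp
    rw [← hE0, ← hx1] at h5
    exact h5
  have z1 := one_law a u η γ0 γ1 η s2 E0 x1 (hlaw (fun _ => 0) (by
    simp only [ne_eq, OfNat.ofNat_ne_zero, not_false_eq_true, zero_pow, Finset.sum_const_zero]
    positivity))
  obtain ⟨G0, hG0⟩ : ∃ G0, G0 = (γ0 E0).im := ⟨_, rfl⟩
  rw [← hG0] at z1
  have hG0le : G0 ≤ Cu := by rw [hG0]; exact hub γ0 hγ0 E0 he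
  have hG1 : m1 ≤ (γ1 E0).im := h2 E0 hB.1 hB.2
  have hG10 : (γ1 E0).im ≤ G0 := by rw [hG0]; exact (h1 E0 hB.1).2.2.2
  have hG0m : m1 ≤ G0 := hG1.trans hG10
  have hG00 : 0 < G0 := hm1.trans_le hG0m
  have hG1p : 0 < (γ1 E0).im := hm1.trans_le hG1
  have z1' := abs_le.1 z1
  have hx1m : x1 ≤ m1 / 2 := by
    have := min_le_left (m1 / 2) 1
    linarith
  have hx11 : x1 ≤ 1 := by
    have := min_le_right (m1 / 2) 1
    linarith
  have hA1 : Aw (fun _ => 1) u = ∑' x, ‖u x‖ ^ 2 := by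
    unfold Aw
    exact tsum_congr fun x => by rw [one_mul]
  refine ⟨by rw [← hA1]; linarith [z1'.1], ?_⟩
  intro ι φ ho E heig cen hφ F
  -- the mass near the source
  have hd0 : 0 < d := by omega
  obtain ⟨j0⟩ : Nonempty (Fin d) := ⟨⟨0, hd0⟩⟩
  obtain ⟨k, hk⟩ : ∃ k, k = Real.sqrt (L2 * (η * s2)) := ⟨_, rfl⟩
  have hk0 : 0 < k := by rw [hk]; positivity
  have hk2 : k ^ 2 = L2 * (η * s2) := by rw [hk, Real.sq_sqrt (by positivity)]
  have hnear := near u hu.sq a j0 k hk0 N hN1 ((ε / 32 + 3 * x1) / η) (by positivity)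
    (fun r hr1 hr2 => by
      have h5 := hlaw (dir j0 r) (by
        rw [dir_sq]
        refine hr2.trans (le_of_eq ?_)
        rw [mul_pow, hk2]
        ring)
      obtain ⟨h6, -⟩ := ph_norm_law (dir j0 r) a u hu.sq η _ _ _ h5 z1
      have h7 := abs_le.1 h6
      have hTg : Tg γ0 γ1 η s2 E0 (dir j0 r) ≤ ε / 32 := by
        unfold Tg
        rw [dir_sq, ← hG0]
        have h8 : L2 ≤ r ^ 2 / (η * s2) := by
          rw [le_div_iff₀ (by positivity), ← hk2]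
          exact hr1
        have h9 : L2 * (m1 / Cu ^ 2) ≤ r ^ 2 / (η * s2) * ((γ1 E0).im / G0 ^ 2) := by
          have h10 : m1 / Cu ^ 2 ≤ (γ1 E0).im / G0 ^ 2 := by gcongr
          exact mul_le_mul h8 h10 (by positivity) (by positivity)
        have h11 : L2 * (m1 / Cu ^ 2) = 32 * Cu / ε := by
          rw [hL2]
          field_simp
        rw [h11] at h9
        rw [div_le_iff₀ (by positivity)]
        calc G0 ≤ Cu := hG0le
          _ = ε / 32 * (32 * Cu / ε) := by field_simp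
          _ ≤ ε / 32 * (1 + r ^ 2 / (η * s2) * ((γ1 E0).im / G0 ^ 2)) := by
              gcongr
              linarith
      rw [le_div_iff₀ hη0]
      nlinarith [h7.2, z1'.1])
  obtain ⟨Nr, hNr⟩ : ∃ Nr, Nr = ∑' x, (Sl a j0 (1 / (N * k))).indicator
    (fun x => ‖u x‖ ^ 2) x := ⟨_, rfl⟩
  rw [← hNr] at hnear
  have hnear2 : η * Nr ≤ ε / 2 := by
    have h5 : η * Nr ≤ η * (4 * (Aw (fun _ => 1) u / N + (ε / 32 + 3 * x1) / η)) :=
      mul_le_mul_of_nonneg_left hnear hη0.le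
    have h6 : η * (4 * (Aw (fun _ => 1) u / N + (ε / 32 + 3 * x1) / η)) =
        4 * (η * Aw (fun _ => 1) u) / N + 4 * (ε / 32 + 3 * x1) := by
      field_simp
    have h7 : 4 * (η * Aw (fun _ => 1) u) / N ≤ 4 * (Cu + 1) / N := by
      have : η * Aw (fun _ => 1) u ≤ Cu + 1 := by linarith [z1'.2]
      gcongr
    linarith
  -- the far part
  have hU : ∀ x, ‖u x‖ ≤ (Cu + 1) / η := by
    intro x
    have h5 : ‖u x‖ ^ 2 ≤ Aw (fun _ => 1) u := by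
      rw [hA1]
      exact hu.sq.le_tsum x fun _ _ => sq_nonneg _
    have h6 : Aw (fun _ => 1) u ≤ ((Cu + 1) / η) ^ 2 := by
      have h7 : Aw (fun _ => 1) u ≤ (Cu + 1) / η := by
        rw [le_div_iff₀ hη0]
        linarith [z1'.2]
      have h8 : 1 ≤ (Cu + 1) / η := by
        rw [le_div_iff₀ hη0]
        linarith
      nlinarith
    exact le_of_sq_le_sq (h5.trans h6) (by positivity)
  obtain ⟨m, hm⟩ : ∃ m, m = c ^ (161 / 80 - δ) := ⟨_, rfl⟩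
  have hm0 : 0 < m := by rw [hm]; positivity
  have hmle : m ≤ 1 := by
    rw [hm]
    exact Real.rpow_le_one hc.le hcle1 (by linarith)
  rw [← hm] at hφ
  have hA0 : 0 < c ^ (-C) := Real.rpow_pos_of_pos hc _
  have hld := ldos2 hu hη0 ho E heig F (Sl a j0 (1 / (N * k))) (1 / (N * k))
    (Sl_far a j0 _) ((Cu + 1) / η) hU (c ^ (-C)) m hA0 hm0 cen hφ
  rw [← hNr] at hld
  have hZ1 : Z d (m / 2) ≤ Kz * (4 / m) ^ (d + 1) := by
    refine (hZb (m / 2) (by positivity) (by linarith)).trans ?_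
    have h5 : 1 / (m / 2) ≤ 4 / m := by
      rw [one_div_div]
      gcongr
      norm_num
    gcongr
  have hZ2 : Z d (m / 4) ≤ Kz * (4 / m) ^ (d + 1) := by
    refine (hZb (m / 4) (by positivity) (by linarith)).trans (le_of_eq ?_)
    rw [one_div_div]
  have hZ0 := Z_one (d := d) (m / 2) (by positivity)
  have hZ0' := Z_one (d := d) (m / 4) (by positivity)
  have hexp : κ1 * c ^ (-δ) ≤ m / 4 * (1 / (N * k)) := by
    have h5 : k ≤ Real.sqrt (L2 * (4 * b ^ 2)) * c ^ (161 / 80 : ℝ) := by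
      rw [hk]
      apply Real.sqrt_le_iff.2
      refine ⟨by positivity, ?_⟩
      rw [mul_pow, Real.sq_sqrt (by positivity), ← Real.rpow_natCast (c ^ (161 / 80 : ℝ)) 2,
        ← Real.rpow_mul hc.le]
      have h6 : η * s2 ≤ 4 * b ^ 2 * c ^ (161 / 80 * ((2 : ℕ) : ℝ)) := by
        have h7 : c ^ (161 / 80 * ((2 : ℕ) : ℝ)) = η * c ^ 2 := by
          rw [hη, ← Real.rpow_natCast c 2, ← Real.rpow_add hc]
          norm_num
        rw [h7, hs2]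
        calc η * (c ^ 2 * V) = η * c ^ 2 * V := by ring
          _ ≤ η * c ^ 2 * (4 * b ^ 2) := by gcongr
          _ = _ := by ring
      calc L2 * (η * s2) ≤ L2 * (4 * b ^ 2 * c ^ (161 / 80 * ((2 : ℕ) : ℝ))) := by gcongr
        _ = _ := by ring
    have h8 : κ1 * c ^ (-δ) = m / 4 * (1 / (N * (Real.sqrt (L2 * (4 * b ^ 2)) *
        c ^ (161 / 80 : ℝ)))) := by
      have h9 : c ^ (-δ) = m / c ^ (161 / 80 : ℝ) := by
        rw [hm, ← Real.rpow_sub hc]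
        congr 1
        ring
      rw [hκ1', h9]
      field_simp
    rw [h8]
    gcongr
  have htail : η * (2 * ((Cu + 1) / η / η) * ((c ^ (-C)) ^ 4 * Z d (m / 2) ^ 2 *
      Real.exp (-(m / 4 * (1 / (N * k)))) * Z d (m / 4))) ≤ ε / 2 := by
    have e1 : η * (2 * ((Cu + 1) / η / η) * ((c ^ (-C)) ^ 4 * Z d (m / 2) ^ 2 *
        Real.exp (-(m / 4 * (1 / (N * k)))) * Z d (m / 4))) =
        2 * (Cu + 1) * η⁻¹ * (c ^ (-C)) ^ 4 * (Z d (m / 2) ^ 2 * Z d (m / 4)) *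
          Real.exp (-(m / 4 * (1 / (N * k)))) := by
      field_simp
    have e2 : Z d (m / 2) ^ 2 * Z d (m / 4) ≤ (Kz * (4 / m) ^ (d + 1)) ^ 2 *
        (Kz * (4 / m) ^ (d + 1)) := by gcongr
    have e3 : Real.exp (-(m / 4 * (1 / (N * k)))) ≤ Real.exp (-(κ1 * c ^ (-δ))) :=
      Real.exp_le_exp.2 (by linarith)
    have e4 : (Kz * (4 / m) ^ (d + 1)) ^ 2 * (Kz * (4 / m) ^ (d + 1)) =
        Kz ^ 3 * 4 ^ (3 * (d + 1)) * (m⁻¹) ^ (3 * (d + 1)) := by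
      rw [div_eq_mul_inv, mul_pow, mul_comm 3 (d + 1), pow_mul, pow_mul]
      ring
    have e5 : η⁻¹ = c ^ (-(81 / 40) : ℝ) := by rw [hη, ← Real.rpow_neg hc.le]
    have e6 : (c ^ (-C)) ^ 4 = c ^ (-(4 * C)) := by
      rw [← Real.rpow_natCast, ← Real.rpow_mul hc.le]
      congr 1
      push_cast
      ring
    have e7 : (m⁻¹) ^ (3 * (d + 1)) = c ^ (-((161 / 80 - δ) * (3 * (d + 1)))) := by
      rw [hm, ← Real.rpow_neg hc.le, ← Real.rpow_natCast, ← Real.rpow_mul hc.le]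
      congr 1
      push_cast
      ring
    rw [e1]
    calc 2 * (Cu + 1) * η⁻¹ * (c ^ (-C)) ^ 4 * (Z d (m / 2) ^ 2 * Z d (m / 4)) *
          Real.exp (-(m / 4 * (1 / (N * k)))) ≤
        2 * (Cu + 1) * η⁻¹ * (c ^ (-C)) ^ 4 * ((Kz * (4 / m) ^ (d + 1)) ^ 2 *
          (Kz * (4 / m) ^ (d + 1))) * Real.exp (-(κ1 * c ^ (-δ))) := by gcongr
      _ = Kt * c ^ (-P) * Real.exp (-(κ1 * c ^ (-δ))) := by
          have e8 : c ^ (-P) = c ^ (-(81 / 40) : ℝ) * c ^ (-(4 * C)) *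
              c ^ (-((161 / 80 - δ) * (3 * (d + 1)))) := by
            rw [← Real.rpow_add hc, ← Real.rpow_add hc, hP]
            congr 1
            ring
          rw [e4, e5, e6, e7, e8, hKt]
          ring
      _ ≤ ε / 2 := n3
  have hfin := mul_le_mul_of_nonneg_left hld hη0.le
  rw [mul_add] at hfin
  have e9 : ∑ n ∈ F, ‖φ n a‖ ^ 2 * (η / ((E n - e) ^ 2 + η ^ 2)) =
      η * ∑ n ∈ F, ‖φ n a‖ ^ 2 / ((E n - e) ^ 2 + η ^ 2) := by
    rw [Finset.mul_sum]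
    exact Finset.sum_congr rfl fun n _ => by ring
  rw [e9]
  linarith

end Pool.Agent.V11260.Loc
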