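import Pool.Agent.V11260.QT.Law2
import Pool.Agent.V11260.Loc.Corr

/-! The mass near the source, from the characteristic function. -/

set_option autoImplicit false

open MeasureTheory Set Filter
open scoped BigOperators Topology ENNReal

namespace Pool.Agent.V11260.Loc

open Pool.Agent.H4R2.LO (Zd)
open Pool.Agent.W788.LD.Spec (S)
open Pool.Agent.TH794.QE (Rs)
open Pool.Agent.V11260.QT

variable {d : ℕ}

/-- the vector in the direction `j0` -/
def dir (j0 : Fin d) (r : ℝ) : Fin d → ℝ := fun i => if i = j0 then r else 0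

theorem dir_sq (j0 : Fin d) (r : ℝ) : ∑ i, dir j0 r i ^ 2 = r ^ 2 := by
  unfold dir
  rw [Finset.sum_eq_single j0 (fun i _ hi => by rw [if_neg hi]; ring)
    (fun h => absurd (Finset.mem_univ _) h), if_pos rfl]

theorem dir_th (j0 : Fin d) (r : ℝ) (a x : Zd d) :
    th (dir j0 r) a x = r * (((x - a) j0 : ℤ) : ℝ) := by
  unfold th dir
  rw [Finset.sum_eq_single j0 (fun i _ hi => by rw [if_neg hi]; ring)
    (fun h => absurd (Finset.mem_univ _) h), if_pos rfl]

/-- the slab -/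
def Sl (a : Zd d) (j0 : Fin d) (ρ : ℝ) : Set (Zd d) := {x | |(((x - a) j0 : ℤ) : ℝ)| ≤ ρ}

theorem Sl_far (a : Zd d) (j0 : Fin d) (ρ : ℝ) (x : Zd d) (hx : x ∉ Sl a j0 ρ) :
    ρ ≤ ‖x - a‖ := by
  have h1 : ρ < |(((x - a) j0 : ℤ) : ℝ)| := not_le.1 hx
  have h2 := norm_le_pi_norm (x - a) j0
  rw [Int.norm_eq_abs] at h2
  linarith

theorem near (u : Zd d → ℂ) (hu : Summable fun x => ‖u x‖ ^ 2) (a : Zd d) (j0 : Fin d)
    (k : ℝ) (hk : 0 < k) (N : ℕ) (hN : 1 ≤ N) (T1 : ℝ) (hT1 : 0 ≤ T1)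
    (h : ∀ r : ℝ, k ^ 2 ≤ r ^ 2 → r ^ 2 ≤ (N * k) ^ 2 →
      Aw (wc (dir j0 r) a) u - Aw (fun _ => 1) u ≤ T1) :
    ∑' x, (Sl a j0 (1 / (N * k))).indicator (fun x => ‖u x‖ ^ 2) x ≤
      4 * (Aw (fun _ => 1) u / N + T1) := by
  have hN0 : (0 : ℝ) < N := by exact_mod_cast hN
  obtain ⟨t, ht⟩ : ∃ t : Zd d → ℝ, t = fun x => (((x - a) j0 : ℤ) : ℝ) := ⟨_, rfl⟩
  have hu1 := Aw_sum (fun _ => 1) (fun _ => zero_le_one) (fun _ => one_le_two) u hu
  have hC : ∀ r : ℝ, (Summable fun x => Real.cos (r * t x) * ‖u x‖ ^ 2) ∧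
      ∑' x, Real.cos (r * t x) * ‖u x‖ ^ 2 = Aw (wc (dir j0 r) a) u - Aw (fun _ => 1) u := by
    intro r
    have h1 := Aw_sum (wc (dir j0 r) a) (wc_0 _ a) (wc_2 _ a) u hu
    have e1 : ∀ x, Real.cos (r * t x) * ‖u x‖ ^ 2 =
        wc (dir j0 r) a x * ‖u x‖ ^ 2 - 1 * ‖u x‖ ^ 2 := by
      intro x
      unfold wc
      rw [dir_th, ht]
      ring
    refine ⟨(h1.sub hu1).congr fun x => (e1 x).symm, ?_⟩
    rw [tsum_congr (L := .unconditional _) e1, h1.tsum_sub hu1]
    rfl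
  have hkernel : ∀ x, (Sl a j0 (1 / (N * k))).indicator (fun x => ‖u x‖ ^ 2) x ≤
      4 / N ^ 2 * ∑ p ∈ Finset.range N, ∑ q ∈ Finset.range N,
        Real.cos ((((p : ℝ) - q) * k) * t x) * ‖u x‖ ^ 2 := by
    intro x
    have e1 : ∑ p ∈ Finset.range N, ∑ q ∈ Finset.range N,
        Real.cos ((((p : ℝ) - q) * k) * t x) * ‖u x‖ ^ 2 =
        ((∑ p ∈ Finset.range N, Real.cos (p * k * t x)) ^ 2 +
          (∑ p ∈ Finset.range N, Real.sin (p * k * t x)) ^ 2) * ‖u x‖ ^ 2 := by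
      generalize ‖u x‖ ^ 2 = w
      rw [sq, sq, Finset.sum_mul_sum, Finset.sum_mul_sum, ← Finset.sum_add_distrib,
        Finset.sum_mul]
      refine Finset.sum_congr rfl fun p _ => ?_
      rw [← Finset.sum_add_distrib, Finset.sum_mul]
      refine Finset.sum_congr rfl fun q _ => ?_
      rw [← Real.cos_sub]
      congr 2
      ring
    rw [e1]
    by_cases hx : x ∈ Sl a j0 (1 / (N * k))
    · rw [indicator_of_mem hx]
      have hx1 : |t x| ≤ 1 / (N * k) := by
        rw [ht]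
        exact hx
      have h2 : ∀ p ∈ Finset.range N, (1 / 2 : ℝ) ≤ Real.cos (p * k * t x) := by
        intro p hp
        have hp1 : (p : ℝ) ≤ N := by exact_mod_cast (Finset.mem_range.1 hp).le
        have h3 : |p * k * t x| ≤ 1 := by
          rw [abs_mul, abs_of_nonneg (by positivity : (0 : ℝ) ≤ p * k)]
          calc (p : ℝ) * k * |t x| ≤ N * k * (1 / (N * k)) := by gcongr
            _ = 1 := by field_simp
        have h4 := Real.one_sub_sq_div_two_le_cos (x := p * k * t x)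
        have h5 : (p * k * t x) ^ 2 ≤ 1 := by
          rw [← sq_abs]
          exact pow_le_one₀ (abs_nonneg _) h3
        linarith
      have h6 : (N : ℝ) * (1 / 2) ≤ ∑ p ∈ Finset.range N, Real.cos (p * k * t x) := by
        have h7 := Finset.card_nsmul_le_sum (Finset.range N) (fun p => Real.cos (p * k * t x))
          (1 / 2) h2
        rw [Finset.card_range, nsmul_eq_mul] at h7
        exact h7
      have h8 : (N : ℝ) ^ 2 / 4 ≤ (∑ p ∈ Finset.range N, Real.cos (p * k * t x)) ^ 2 +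
          (∑ p ∈ Finset.range N, Real.sin (p * k * t x)) ^ 2 := by
        have h9 := pow_le_pow_left₀ (by positivity : (0 : ℝ) ≤ N * (1 / 2)) h6 2
        have h10 := sq_nonneg (∑ p ∈ Finset.range N, Real.sin (p * k * t x))
        nlinarith
      calc ‖u x‖ ^ 2 = 4 / N ^ 2 * ((N : ℝ) ^ 2 / 4 * ‖u x‖ ^ 2) := by field_simp
        _ ≤ _ := by gcongr
    · rw [indicator_of_notMem hx]
      positivity
  have hsum : Summable fun x => 4 / (N : ℝ) ^ 2 * ∑ p ∈ Finset.range N, ∑ q ∈ Finset.range N,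
      Real.cos ((((p : ℝ) - q) * k) * t x) * ‖u x‖ ^ 2 :=
    (summable_sum fun p _ => summable_sum fun q _ => (hC _).1).mul_left _
  have hind : Summable ((Sl a j0 (1 / (N * k))).indicator fun x => ‖u x‖ ^ 2) := hu.indicator _
  refine (hind.tsum_le_tsum hkernel hsum).trans ?_
  rw [tsum_mul_left, Summable.tsum_finsetSum fun p _ => summable_sum fun q _ => (hC _).1]
  have h1 : ∑ p ∈ Finset.range N, ∑' x, ∑ q ∈ Finset.range N,
      Real.cos ((((p : ℝ) - q) * k) * t x) * ‖u x‖ ^ 2 ≤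
      ∑ p ∈ Finset.range N, (Aw (fun _ => 1) u + N * T1) := by
    refine Finset.sum_le_sum fun p hp => ?_
    rw [Summable.tsum_finsetSum fun q _ => (hC _).1]
    have h2 : ∀ q ∈ Finset.range N, ∑' x, Real.cos ((((p : ℝ) - q) * k) * t x) * ‖u x‖ ^ 2 ≤
        (if q = p then Aw (fun _ => 1) u else 0) + T1 := by
      intro q hq
      by_cases hqp : q = p
      · rw [if_pos hqp, hqp]
        have e1 : ∑' x, Real.cos ((((p : ℝ) - p) * k) * t x) * ‖u x‖ ^ 2 =
            Aw (fun _ => 1) u := by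
          unfold Aw
          refine tsum_congr fun x => ?_
          rw [sub_self, zero_mul, zero_mul, Real.cos_zero]
        rw [e1]
        linarith
      · rw [if_neg hqp, zero_add, (hC _).2]
        have h3 : (1 : ℝ) ≤ ((p : ℝ) - q) ^ 2 := by
          have h4 : (1 : ℤ) ≤ ((p : ℤ) - q) ^ 2 := by
            have h5 : (p : ℤ) - q ≠ 0 := by
              intro h6
              apply hqp
              omega
            have : 0 < ((p : ℤ) - q) ^ 2 := by positivity
            omega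
          exact_mod_cast h4
        have h7 : ((p : ℝ) - q) ^ 2 ≤ (N : ℝ) ^ 2 := by
          have hp1 : (p : ℝ) ≤ N := by exact_mod_cast (Finset.mem_range.1 hp).le
          have hq1 : (q : ℝ) ≤ N := by exact_mod_cast (Finset.mem_range.1 hq).le
          have hp0 : (0 : ℝ) ≤ p := Nat.cast_nonneg p
          have hq0 : (0 : ℝ) ≤ q := Nat.cast_nonneg q
          rw [sq_le_sq, abs_of_pos hN0]
          exact abs_le.2 ⟨by linarith, by linarith⟩
        apply h
        · rw [mul_pow]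
          nlinarith [sq_nonneg k]
        · rw [mul_pow, mul_pow]
          exact mul_le_mul_of_nonneg_right h7 (sq_nonneg k)
    refine (Finset.sum_le_sum h2).trans (le_of_eq ?_)
    rw [Finset.sum_add_distrib, Finset.sum_ite_eq' , if_pos hp, Finset.sum_const,
      Finset.card_range, nsmul_eq_mul]
  refine (mul_le_mul_of_nonneg_left h1 (by positivity)).trans (le_of_eq ?_)
  rw [Finset.sum_const, Finset.card_range, nsmul_eq_mul]
  field_simp

section

variable {ι : Type} {φ : ι → H2 d}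

theorem ldos2 {V : Zd d → ℝ} {a : Zd d} {e η : ℝ} {u : Zd d → ℂ} (h : Rs d V a e η u)
    (hη : 0 < η) (ho : Orthonormal ℂ φ) (ε : ι → ℝ)
    (he : ∀ n x, -S (φ n) x + (V x : ℂ) * φ n x = (ε n : ℂ) * φ n x) (F : Finset ι)
    (B : Set (Zd d)) (R : ℝ) (hB : ∀ x ∉ B, R ≤ ‖x - a‖) (U : ℝ) (hU : ∀ x, ‖u x‖ ≤ U)
    (A m : ℝ) (hA : 0 < A) (hm : 0 < m) (c : ι → Zd d)
    (hφ : ∀ n x, ‖φ n x‖ ≤ A * Real.exp (-(m * ‖x - c n‖))) :
    ∑ n ∈ F, ‖φ n a‖ ^ 2 / ((ε n - e) ^ 2 + η ^ 2) ≤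
      ∑' x, B.indicator (fun x => ‖u x‖ ^ 2) x +
        2 * (U / η) * (A ^ 4 * Z d (m / 2) ^ 2 * Real.exp (-(m / 4 * R)) * Z d (m / 4)) := by
  obtain ⟨s0, e0⟩ := sE' (m / 4) (by positivity) a
  have hZ := Z_one (d := d) (m / 2) (half_pos hm)
  have h1 := ldos h hη ho ε he F B U hU
    (fun x => A ^ 4 * Z d (m / 2) ^ 2 * Real.exp (-(m / 4 * R)) * Real.exp (-(m / 4 * ‖x - a‖)))
    (s0.mul_left _) (fun x => by positivity) (fun x hx => by
      refine (corr ho A m hA hm c hφ a x F).trans ?_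
      rw [mul_assoc _ (Real.exp (-(m / 4 * R))), ← Real.exp_add]
      refine mul_le_mul_of_nonneg_left (Real.exp_le_exp.2 ?_) (by positivity)
      have h2 := mul_le_mul_of_nonneg_left (hB x hx) hm.le
      linarith)
  rw [tsum_mul_left, e0] at h1
  exact h1

end

end Pool.Agent.V11260.Loc
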