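import Pool.Agent.V11260.Loc.Zsum
import Pool.Agent.TH794.QE.FinA

/-! Eigenfunctions against the resolvent. -/

set_option autoImplicit false

open MeasureTheory Set Filter
open scoped BigOperators Topology ENNReal

namespace Pool.Agent.V11260.Loc

open Pool.Agent.H4R2.LO (Zd)
open Pool.Agent.W788.LD.Spec (S)
open Pool.Agent.TH794.QE (Rs)

variable {d : ℕ}

/-- the Hilbert space -/
noncomputable abbrev H2 (d : ℕ) := lp (fun _ : Zd d => ℂ) 2

theorem sq_sum (f : H2 d) : Summable fun x => ‖f x‖ ^ 2 := by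
  have h := lp.memℓp f
  have h1 := h.summable (by norm_num)
  simpa using h1

theorem norm_sq_eq (f : H2 d) : ‖f‖ ^ 2 = ∑' x, ‖f x‖ ^ 2 := by
  have h := lp.norm_rpow_eq_tsum (p := 2) (by norm_num) f
  simpa using h

theorem inner_eq (f g : H2 d) : inner ℂ f g = ∑' x, (starRingEnd ℂ) (f x) * g x := by
  rw [lp.inner_eq_tsum]
  refine tsum_congr fun x => ?_
  rw [RCLike.inner_apply, mul_comm]

/-- an element of the Hilbert space -/
noncomputable def mk2 (u : Zd d → ℂ) (hu : Summable fun x => ‖u x‖ ^ 2) : H2 d :=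
  ⟨u, memℓp_gen (by simpa using hu)⟩

theorem mk2_apply (u : Zd d → ℂ) (hu : Summable fun x => ‖u x‖ ^ 2) (x : Zd d) :
    mk2 u hu x = u x := rfl

/-- **eigenfunctions against the resolvent** -/
theorem pair_eq {V : Zd d → ℝ} {a : Zd d} {e η : ℝ} {u : Zd d → ℂ} (h : Rs d V a e η u)
    (φ : Zd d → ℂ) (hφ : Summable fun x => ‖φ x‖ ^ 2) (ε : ℝ)
    (he : ∀ x, -S φ x + (V x : ℂ) * φ x = (ε : ℂ) * φ x) :
    (((ε - e : ℝ) : ℂ) - (η : ℂ) * Complex.I) * ∑' x, (starRingEnd ℂ) (φ x) * u x =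
      (starRingEnd ℂ) (φ a) := by
  obtain ⟨s1, s2, e1⟩ := Pool.Agent.W788.LD.Spec.symm φ u hφ h.sq
  have s0 := Pool.Agent.W788.LD.Spec.summ_mul φ u hφ h.sq
  have e2 : ∀ x, (starRingEnd ℂ) (φ x) * (if x = a then 1 else 0) =
      (((ε - e : ℝ) : ℂ) - (η : ℂ) * Complex.I) * ((starRingEnd ℂ) (φ x) * u x) -
        ((starRingEnd ℂ) (φ x) * S u x - (starRingEnd ℂ) (S φ x) * u x) := by
    intro x
    have h1 := h.eq x
    have h2 := congrArg (starRingEnd ℂ) (he x)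
    simp only [map_add, map_mul, map_neg, Complex.conj_ofReal] at h2
    rw [← h1]
    push_cast
    linear_combination (u x) * h2
  have e3 : ∑' x, (starRingEnd ℂ) (φ x) * (if x = a then (1 : ℂ) else 0) =
      (starRingEnd ℂ) (φ a) := by
    rw [tsum_eq_single a (fun x hx => by rw [if_neg hx, mul_zero]), if_pos rfl, mul_one]
  rw [← e3, tsum_congr (L := .unconditional _) e2, (s0.mul_left _).tsum_sub (s1.sub s2),
    s1.tsum_sub s2, e1, sub_self, sub_zero, tsum_mul_left]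

theorem den_norm (x η : ℝ) : ‖((x : ℝ) : ℂ) - (η : ℂ) * Complex.I‖ ^ 2 = x ^ 2 + η ^ 2 := by
  rw [← Complex.normSq_eq_norm_sq, Complex.normSq_apply]
  simp
  ring

section

variable {ι : Type} {φ : ι → H2 d}

theorem bessel_pt (ho : Orthonormal ℂ φ) (F : Finset ι) (x : Zd d) :
    ∑ n ∈ F, ‖φ n x‖ ^ 2 ≤ 1 := by
  have hu : Summable fun y : Zd d => ‖(if y = x then (1 : ℂ) else 0)‖ ^ 2 :=
    summable_of_ne_finset_zero (s := {x}) fun y hy => by
      rw [if_neg (by simpa using hy)]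
      simp
  have h := ho.sum_inner_products_le (x := mk2 _ hu) (s := F)
  have e1 : ∀ n, ‖inner ℂ (φ n) (mk2 _ hu)‖ ^ 2 = ‖φ n x‖ ^ 2 := by
    intro n
    rw [inner_eq, tsum_eq_single x fun y hy => by
      rw [mk2_apply, if_neg hy, mul_zero], mk2_apply, if_pos rfl, mul_one, Complex.norm_conj]
  have e2 : ‖mk2 _ hu‖ ^ 2 = 1 := by
    rw [norm_sq_eq, tsum_eq_single x fun y hy => by
      rw [mk2_apply, if_neg hy]
      simp, mk2_apply, if_pos rfl]
    simp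
  rw [e2] at h
  refine le_trans (le_of_eq ?_) h
  exact Finset.sum_congr rfl fun n _ => (e1 n).symm

/-- **the local density of states of a family of eigenfunctions** -/
theorem ldos {V : Zd d → ℝ} {a : Zd d} {e η : ℝ} {u : Zd d → ℂ} (h : Rs d V a e η u)
    (hη : 0 < η) (ho : Orthonormal ℂ φ) (ε : ι → ℝ)
    (he : ∀ n x, -S (φ n) x + (V x : ℂ) * φ n x = (ε n : ℂ) * φ n x) (F : Finset ι)
    (B : Set (Zd d)) (U : ℝ) (hU : ∀ x, ‖u x‖ ≤ U) (W : Zd d → ℝ) (hW : Summable W)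
    (hW0 : ∀ x, 0 ≤ W x) (hFW : ∀ x ∉ B, ∑ n ∈ F, ‖φ n a‖ * ‖φ n x‖ ≤ W x) :
    ∑ n ∈ F, ‖φ n a‖ ^ 2 / ((ε n - e) ^ 2 + η ^ 2) ≤
      ∑' x, B.indicator (fun x => ‖u x‖ ^ 2) x + 2 * (U / η) * ∑' x, W x := by
  classical
  have hU0 : 0 ≤ U := (norm_nonneg _).trans (hU a)
  have hW1 : 0 ≤ ∑' x, W x := tsum_nonneg hW0
  -- the two parts of `u`
  obtain ⟨u1, hu1⟩ : ∃ u1 : Zd d → ℂ, u1 = fun x => if x ∈ B then u x else 0 := ⟨_, rfl⟩
  obtain ⟨u2, hu2⟩ : ∃ u2 : Zd d → ℂ, u2 = fun x => if x ∈ B then 0 else u x := ⟨_, rfl⟩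
  have s1 : Summable fun x => ‖u1 x‖ ^ 2 := by
    refine Summable.of_nonneg_of_le (fun x => sq_nonneg _) (fun x => ?_) h.sq
    rw [hu1]
    simp only
    split_ifs
    · exact le_rfl
    · simp
  have s2 : Summable fun x => ‖u2 x‖ ^ 2 := by
    refine Summable.of_nonneg_of_le (fun x => sq_nonneg _) (fun x => ?_) h.sq
    rw [hu2]
    simp only
    split_ifs
    · simp
    · exact le_rfl
  have hu12 : ∀ x, u x = u1 x + u2 x := by
    intro x
    rw [hu1, hu2]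
    simp only
    split_ifs <;> simp
  obtain ⟨α, hα⟩ : ∃ α : ι → ℝ, α = fun n => ‖∑' x, (starRingEnd ℂ) (φ n x) * u x‖ := ⟨_, rfl⟩
  obtain ⟨β, hβ⟩ : ∃ β : ι → ℝ, β = fun n => ‖∑' x, (starRingEnd ℂ) (φ n x) * u1 x‖ := ⟨_, rfl⟩
  have hα0 : ∀ n, 0 ≤ α n := fun n => by rw [hα]; exact norm_nonneg _
  have hβ0 : ∀ n, 0 ≤ β n := fun n => by rw [hβ]; exact norm_nonneg _
  have hαeq : ∀ n, α n ^ 2 * ((ε n - e) ^ 2 + η ^ 2) = ‖φ n a‖ ^ 2 := by
    intro n
    have h1 := pair_eq h (φ n) (sq_sum (φ n)) (ε n) (he n)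
    have h2 := congrArg (fun z => ‖z‖ ^ 2) h1
    simp only [norm_mul, mul_pow, Complex.norm_conj] at h2
    rw [den_norm] at h2
    rw [hα]
    simp only
    rw [← h2]
    ring
  have hαη : ∀ n, α n * η ≤ ‖φ n a‖ := by
    intro n
    have h1 := hαeq n
    have h2 : (α n * η) ^ 2 ≤ ‖φ n a‖ ^ 2 := by
      rw [← h1, mul_pow]
      have : 0 ≤ α n ^ 2 * (ε n - e) ^ 2 := by positivity
      nlinarith
    exact le_of_sq_le_sq h2 (norm_nonneg _)
  have hsum : ∀ n, α n ≤ β n + ∑' x, ‖φ n x‖ * ‖u2 x‖ := by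
    intro n
    have t1 := Pool.Agent.W788.LD.Spec.summ_mul (φ n) u1 (sq_sum (φ n)) s1
    have t2 := Pool.Agent.W788.LD.Spec.summ_mul (φ n) u2 (sq_sum (φ n)) s2
    have e1 : ∑' x, (starRingEnd ℂ) (φ n x) * u x =
        ∑' x, (starRingEnd ℂ) (φ n x) * u1 x + ∑' x, (starRingEnd ℂ) (φ n x) * u2 x := by
      rw [← t1.tsum_add t2]
      exact tsum_congr fun x => by rw [hu12 x]; ring
    rw [hα, hβ]
    simp only
    rw [e1]
    refine (norm_add_le _ _).trans (add_le_add le_rfl ?_)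
    have t3 : Summable fun x => ‖(starRingEnd ℂ) (φ n x) * u2 x‖ := by
      refine Summable.of_nonneg_of_le (fun x => norm_nonneg _) (fun x => ?_)
        ((sq_sum (φ n)).add s2)
      rw [norm_mul, Complex.norm_conj]
      nlinarith [sq_nonneg (‖φ n x‖ - ‖u2 x‖), norm_nonneg (φ n x), norm_nonneg (u2 x)]
    refine (norm_tsum_le_tsum_norm t3).trans (le_of_eq ?_)
    exact tsum_congr fun x => by rw [norm_mul, Complex.norm_conj]
  have hbess : ∑ n ∈ F, β n ^ 2 ≤ ∑' x, B.indicator (fun x => ‖u x‖ ^ 2) x := by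
    have h1 := ho.sum_inner_products_le (x := mk2 u1 s1) (s := F)
    have e2 : ‖mk2 u1 s1‖ ^ 2 = ∑' x, B.indicator (fun x => ‖u x‖ ^ 2) x := by
      rw [norm_sq_eq]
      refine tsum_congr fun x => ?_
      rw [mk2_apply, hu1]
      simp only
      by_cases hx : x ∈ B
      · rw [if_pos hx, indicator_of_mem hx]
      · rw [if_neg hx, indicator_of_notMem hx]
        simp
    rw [e2] at h1
    refine le_trans (le_of_eq ?_) h1
    refine Finset.sum_congr rfl fun n _ => ?_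
    rw [hβ, inner_eq]
    simp only [mk2_apply]
  have hsm : ∀ n, Summable fun x => ‖φ n x‖ * ‖u2 x‖ := by
    intro n
    refine Summable.of_nonneg_of_le (fun x => by positivity) (fun x => ?_)
      ((sq_sum (φ n)).add s2)
    nlinarith [sq_nonneg (‖φ n x‖ - ‖u2 x‖), norm_nonneg (φ n x), norm_nonneg (u2 x)]
  have htail : ∑ n ∈ F, ‖φ n a‖ * ∑' x, ‖φ n x‖ * ‖u2 x‖ ≤ U * ∑' x, W x := by
    have e1 : ∑ n ∈ F, ‖φ n a‖ * ∑' x, ‖φ n x‖ * ‖u2 x‖ =
        ∑' x, ∑ n ∈ F, ‖φ n a‖ * (‖φ n x‖ * ‖u2 x‖) := by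
      rw [Summable.tsum_finsetSum fun n _ => (hsm n).mul_left _]
      exact Finset.sum_congr rfl fun n _ => by rw [tsum_mul_left]
    rw [e1, ← tsum_mul_left]
    refine (summable_sum fun n _ => (hsm n).mul_left _).tsum_le_tsum (fun x => ?_)
      (hW.mul_left U)
    have e2 : ∑ n ∈ F, ‖φ n a‖ * (‖φ n x‖ * ‖u2 x‖) = ‖u2 x‖ * ∑ n ∈ F, ‖φ n a‖ * ‖φ n x‖ := by
      rw [Finset.mul_sum]
      exact Finset.sum_congr rfl fun n _ => by ring
    rw [e2, hu2]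
    simp only
    by_cases hx : x ∈ B
    · rw [if_pos hx, norm_zero, zero_mul]
      exact mul_nonneg hU0 (hW0 x)
    · rw [if_neg hx]
      exact mul_le_mul (hU x) (hFW x hx) (Finset.sum_nonneg fun n _ => by positivity) hU0
  have hfin : ∑ n ∈ F, α n ^ 2 ≤ ∑' x, B.indicator (fun x => ‖u x‖ ^ 2) x +
      2 * (U / η) * ∑' x, W x := by
    have h1 : ∀ n ∈ F, α n ^ 2 ≤ β n ^ 2 + 2 / η * (‖φ n a‖ * ∑' x, ‖φ n x‖ * ‖u2 x‖) := by
      intro n _
      have a1 := hsum n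
      have a2 := hαη n
      have a3 : 0 ≤ ∑' x, ‖φ n x‖ * ‖u2 x‖ := tsum_nonneg fun x => by positivity
      have a4 : α n ^ 2 ≤ α n * β n + α n * ∑' x, ‖φ n x‖ * ‖u2 x‖ := by
        rw [sq, ← mul_add]
        exact mul_le_mul_of_nonneg_left a1 (hα0 n)
      have a5 : α n * ∑' x, ‖φ n x‖ * ‖u2 x‖ ≤ 1 / η * (‖φ n a‖ * ∑' x, ‖φ n x‖ * ‖u2 x‖) := by
        have a6 : α n ≤ 1 / η * ‖φ n a‖ := by
          rw [one_div, ← div_eq_inv_mul, le_div_iff₀ hη]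
          exact a2
        rw [← mul_assoc]
        exact mul_le_mul_of_nonneg_right a6 a3
      have a7 : α n * β n ≤ (α n ^ 2 + β n ^ 2) / 2 := by nlinarith [sq_nonneg (α n - β n)]
      have a8 : 2 / η * (‖φ n a‖ * ∑' x, ‖φ n x‖ * ‖u2 x‖) =
          2 * (1 / η * (‖φ n a‖ * ∑' x, ‖φ n x‖ * ‖u2 x‖)) := by ring
      rw [a8]
      linarith
    refine (Finset.sum_le_sum h1).trans ?_
    rw [Finset.sum_add_distrib, ← Finset.mul_sum]
    have h2 : 2 / η * ∑ n ∈ F, ‖φ n a‖ * ∑' x, ‖φ n x‖ * ‖u2 x‖ ≤ 2 / η * (U * ∑' x, W x) :=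
      mul_le_mul_of_nonneg_left htail (by positivity)
    have h3 : 2 / η * (U * ∑' x, W x) = 2 * (U / η) * ∑' x, W x := by ring
    linarith
  refine le_trans (le_of_eq ?_) hfin
  refine Finset.sum_congr rfl fun n _ => ?_
  have h1 : 0 < (ε n - e) ^ 2 + η ^ 2 := by positivity
  rw [div_eq_iff h1.ne', hαeq]

end

end Pool.Agent.V11260.Loc
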