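import Pool.Agent.H4R2.LO.Main

/-! Lattice sums of exponentials. -/

set_option autoImplicit false

open MeasureTheory Set Filter
open scoped BigOperators Topology

namespace Pool.Agent.V11260.Loc

open Pool.Agent.H4R2.LO

theorem pow_exp (d : ℕ) (t : ℝ) (ht : 0 ≤ t) : t ^ d ≤ d.factorial * Real.exp t := by
  have h := Real.pow_div_factorial_le_exp t ht d
  rw [div_le_iff₀ (by positivity)] at h
  linarith

theorem Zb (d : ℕ) : ∃ K : ℝ, 0 < K ∧ ∀ m : ℝ, 0 < m → m ≤ 1 →
    ∑' x : Zd d, Real.exp (-(m * ‖x‖)) ≤ K * (1 / m) ^ (d + 1) := by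
  refine ⟨3 ^ d * (d.factorial * 2 ^ d * 3) * 3, by positivity, fun m hm hm1 => ?_⟩
  -- the sum over the shells
  have hterm : ∀ n : ℕ, ((2 * n + 1 : ℕ) : ℝ) ^ d * Real.exp (-(m * n)) ≤
      3 ^ d * (d.factorial * 2 ^ d * 3) * (1 / m) ^ d * (m * Real.exp (-(m / 2 * n)) * (1 / m)) := by
    intro n
    have hn : (0 : ℝ) ≤ n := Nat.cast_nonneg n
    have h1 : ((2 * n + 1 : ℕ) : ℝ) ^ d ≤ 3 ^ d * ((n : ℝ) + 1) ^ d := by
      rw [← mul_pow]
      apply pow_le_pow_left₀ (by positivity)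
      push_cast
      linarith
    have h2 := pow_exp d (m / 2 * ((n : ℝ) + 1)) (by positivity)
    have h3 : ((n : ℝ) + 1) ^ d = (m / 2 * ((n : ℝ) + 1)) ^ d * (2 ^ d * (1 / m) ^ d) := by
      rw [← mul_pow, ← mul_pow]
      congr 1
      field_simp
    have h4 : Real.exp (m / 2 * ((n : ℝ) + 1)) * Real.exp (-(m * n)) ≤
        3 * Real.exp (-(m / 2 * n)) := by
      have e1 : Real.exp (m / 2 * ((n : ℝ) + 1)) * Real.exp (-(m * n)) =
          Real.exp (m / 2) * Real.exp (-(m / 2 * n)) := by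
        rw [← Real.exp_add, ← Real.exp_add]
        congr 1
        ring
      rw [e1]
      have h5 : Real.exp (m / 2) ≤ 3 := by
        have h6 : Real.exp (m / 2) ≤ Real.exp 1 := Real.exp_le_exp.2 (by linarith)
        have := Real.exp_one_lt_d9
        linarith
      gcongr
    calc ((2 * n + 1 : ℕ) : ℝ) ^ d * Real.exp (-(m * n)) ≤
        3 ^ d * ((n : ℝ) + 1) ^ d * Real.exp (-(m * n)) := by gcongr
      _ = 3 ^ d * ((m / 2 * ((n : ℝ) + 1)) ^ d * (2 ^ d * (1 / m) ^ d)) * Real.exp (-(m * n)) := by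
          rw [← h3]
      _ ≤ 3 ^ d * ((d.factorial * Real.exp (m / 2 * ((n : ℝ) + 1))) * (2 ^ d * (1 / m) ^ d)) *
          Real.exp (-(m * n)) := by gcongr
      _ = 3 ^ d * (d.factorial * 2 ^ d) * (1 / m) ^ d *
          (Real.exp (m / 2 * ((n : ℝ) + 1)) * Real.exp (-(m * n))) := by ring
      _ ≤ 3 ^ d * (d.factorial * 2 ^ d) * (1 / m) ^ d * (3 * Real.exp (-(m / 2 * n))) := by gcongr
      _ = _ := by
          field_simp
  have hgeo : HasSum (fun n : ℕ => Real.exp (-(m / 2 * n))) (1 - Real.exp (-(m / 2)))⁻¹ := by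
    have h1 : Real.exp (-(m / 2)) < 1 := by
      rw [← Real.exp_zero]
      exact Real.exp_lt_exp.2 (by linarith)
    have h2 := hasSum_geometric_of_lt_one (Real.exp_pos _).le h1
    refine h2.congr_fun ?_ |> fun h => h
    intro n
    rw [← Real.exp_nat_mul]
    congr 1
    ring
  have hgv : m * (1 - Real.exp (-(m / 2)))⁻¹ ≤ 3 := by
    have h1 : m / 3 ≤ 1 - Real.exp (-(m / 2)) := by
      have h2 : Real.exp (-(m / 2)) ≤ 1 / (1 + m / 2) := by
        rw [Real.exp_neg, ← one_div]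
        apply one_div_le_one_div_of_le (by positivity)
        linarith [Real.add_one_le_exp (m / 2)]
      have h3 : 1 / (1 + m / 2) ≤ 1 - m / 3 := by
        rw [div_le_iff₀ (by positivity)]
        nlinarith
      linarith
    rw [← div_eq_mul_inv, div_le_iff₀ (by linarith)]
    linarith
  have hs : Summable fun n : ℕ => ((2 * n + 1 : ℕ) : ℝ) ^ d * Real.exp (-(m * n)) := by
    refine Summable.of_nonneg_of_le (fun n => by positivity) hterm ?_
    exact ((hgeo.summable.mul_left m).mul_right _).mul_left _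
  have hsum : ∑' n : ℕ, ((2 * n + 1 : ℕ) : ℝ) ^ d * Real.exp (-(m * n)) ≤
      3 ^ d * (d.factorial * 2 ^ d * 3) * 3 * (1 / m) ^ (d + 1) := by
    refine (hs.tsum_le_tsum hterm
      (((hgeo.summable.mul_left m).mul_right _).mul_left _)).trans ?_
    rw [tsum_mul_left, tsum_mul_right, tsum_mul_left, hgeo.tsum_eq]
    calc 3 ^ d * (d.factorial * 2 ^ d * 3) * (1 / m) ^ d *
        (m * (1 - Real.exp (-(m / 2)))⁻¹ * (1 / m)) ≤
        3 ^ d * (d.factorial * 2 ^ d * 3) * (1 / m) ^ d * (3 * (1 / m)) := by gcongr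
      _ = _ := by ring
  refine le_trans ?_ hsum
  refine Real.tsum_le_of_sum_le (fun x => (Real.exp_pos _).le) (fun F => ?_)
  have h1 : ∑ x ∈ F, Real.exp (-(m * ‖x‖)) =
      ∑ n ∈ F.image (fun x => dd x 0), ∑ x ∈ F.filter (fun x => dd x 0 = n),
        Real.exp (-(m * ‖x‖)) := by
    rw [Finset.sum_fiberwise_of_maps_to]
    intro x hx
    exact Finset.mem_image_of_mem _ hx
  rw [h1]
  have h2 : ∀ n ∈ F.image (fun x => dd x 0), ∑ x ∈ F.filter (fun x => dd x 0 = n),
      Real.exp (-(m * ‖x‖)) ≤ ((2 * n + 1 : ℕ) : ℝ) ^ d * Real.exp (-(m * n)) := by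
    intro n _
    have h3 : ∀ x ∈ F.filter (fun x => dd x 0 = n), Real.exp (-(m * ‖x‖)) ≤ Real.exp (-(m * n)) := by
      intro x hx
      have h4 := (Finset.mem_filter.1 hx).2
      have h5 := Em.dd_norm x (0 : Zd d)
      rw [sub_zero, h4] at h5
      rw [← h5]
    refine (Finset.sum_le_card_nsmul _ _ _ h3).trans ?_
    rw [nsmul_eq_mul]
    refine mul_le_mul_of_nonneg_right ?_ (Real.exp_pos _).le
    have h6 : (F.filter (fun x => dd x 0 = n)).card ≤ (bx (0 : Zd d) n).card := by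
      apply Finset.card_le_card
      intro x hx
      have h4 := (Finset.mem_filter.1 hx).2
      rw [Em.mem_bx, Em.dd_comm, h4]
    rw [Em.card_bx] at h6
    exact_mod_cast h6
  exact (Finset.sum_le_sum h2).trans (hs.sum_le_tsum _ (fun n _ => by positivity))

end Pool.Agent.V11260.Loc
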